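import Pool.Agent.Helper67.NX2.Defs
import Pool.Agent.Helper8.NX.BaseLS
import Pool.Agent.Helper41.NX.BaseClass
import Pool.Agent.Helper28.NX.BaseAux
import Pool.Agent.Helper87.NX2.Dil

/-!
# Project NX2: base, small phases (NX2-A15)
-/

set_option autoImplicit false

open Finset
open scoped BigOperators ComplexConjugate

namespace Pool.Agent.Helper67.NX2

open Pool.Agent.Helper57.NX

noncomputable section

/-- splitting an interval into residue classes -/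
private theorem sum_split8 (q u' T' : ℕ) (G : ℕ → ℝ) :
    ∑ k ∈ Ico (q * u') (q * (u' + T')), G k =
      ∑ r ∈ range q, ∑ i ∈ Ico u' (u' + T'), G (q * i + r) := by
  rw [sum_comm]
  induction T' with
  | zero => simp
  | succ T ih =>
    rw [← Finset.sum_Ico_consecutive _
      (show q * u' ≤ q * (u' + T) from Nat.mul_le_mul_left _ (by omega))
      (show q * (u' + T) ≤ q * (u' + (T + 1)) from Nat.mul_le_mul_left _ (by omega)), ih,
      ← add_assoc u' T 1, Finset.sum_Ico_succ_top (by omega)]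
    congr 1
    rw [Finset.sum_Ico_eq_sum_range]
    have : q * (u' + T + 1) - q * (u' + T) = q := by
      rw [Nat.mul_succ]
      omega
    rw [this]

/-- the average over an interval in terms of averages over residue classes -/
private theorem avg_split8 (u T q u' T' : ℕ) (hq : 1 ≤ q) (hT : 0 < T) (hT' : 0 < T')
    (h1 : u ≤ q * u') (h2 : q * (u' + T') ≤ u + T) (h3 : T ≤ q * T' + 3 * q)
    (G : ℕ → ℝ) (h0 : ∀ k, 0 ≤ G k) (hG : ∀ k, G k ≤ 1) :
    𝔼 k ∈ Ico u (u + T), G k ≤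
      𝔼 r ∈ range q, 𝔼 i ∈ Ico u' (u' + T'), G (q * i + r) + 3 * q / T := by
  have hTr : (0 : ℝ) < T := by exact_mod_cast hT
  have hTr' : (0 : ℝ) < T' := by exact_mod_cast hT'
  have hqr : (0 : ℝ) < q := by exact_mod_cast hq
  have hqT : q * T' ≤ T := by
    rw [Nat.mul_add] at h2
    omega
  have hqTr : (q : ℝ) * T' ≤ T := by exact_mod_cast hqT
  have hsub : Ico (q * u') (q * (u' + T')) ⊆ Ico u (u + T) := by
    intro k hk
    rw [mem_Ico] at hk ⊢
    omega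
  have hsum : ∑ k ∈ Ico u (u + T), G k ≤
      ∑ k ∈ Ico (q * u') (q * (u' + T')), G k + 3 * q := by
    rw [← sum_sdiff hsub, add_comm]
    refine add_le_add_right ?_ _
    refine (sum_le_card_nsmul _ _ 1 fun k _ => hG k).trans ?_
    rw [nsmul_eq_mul, mul_one, card_sdiff_of_subset hsub, Nat.card_Ico, Nat.card_Ico]
    have h4 : u + T - u - (q * (u' + T') - q * u') ≤ 3 * q := by
      rw [Nat.mul_add]
      omega
    exact_mod_cast h4
  have hA0 : 0 ≤ ∑ k ∈ Ico (q * u') (q * (u' + T')), G k := sum_nonneg fun k _ => h0 k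
  rw [expect_eq_sum_div_card, expect_eq_sum_div_card, Nat.card_Ico, card_range]
  have hin : ∀ r ∈ range q, 𝔼 i ∈ Ico u' (u' + T'), G (q * i + r) =
      (∑ i ∈ Ico u' (u' + T'), G (q * i + r)) / T' := by
    intro r _
    rw [expect_eq_sum_div_card, Nat.card_Ico, Nat.add_sub_cancel_left]
  rw [sum_congr rfl hin, ← sum_div, ← sum_split8, Nat.add_sub_cancel_left, div_div]
  calc (∑ k ∈ Ico u (u + T), G k) / T ≤
        (∑ k ∈ Ico (q * u') (q * (u' + T')), G k + 3 * q) / T := by gcongr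
    _ = (∑ k ∈ Ico (q * u') (q * (u' + T')), G k) / T + 3 * q / T := add_div _ _ _
    _ ≤ _ := by
        gcongr
        linarith

/-- the covering of a positive number by the classes -/
private theorem cover8 {D ε2 : ℝ} (hD : 1 ≤ D) {J : ℕ} (hJ : 2 / 7 < ε2 * (7 / 6 : ℝ) ^ (J + 1))
    {M : ℝ} (h0 : D ^ ε2 ≤ M) (h1 : M ≤ D ^ (2 / 7 : ℝ)) :
    ∃ j ≤ J, D ^ (ε2 * (7 / 6 : ℝ) ^ j) ≤ M ∧ M ≤ (D ^ (ε2 * (7 / 6 : ℝ) ^ j)) ^ (7 / 6 : ℝ) := by
  classical
  have hstep : ∀ j : ℕ, (D ^ (ε2 * (7 / 6 : ℝ) ^ j)) ^ (7 / 6 : ℝ) =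
      D ^ (ε2 * (7 / 6 : ℝ) ^ (j + 1)) := by
    intro j
    rw [← Real.rpow_mul (by linarith), pow_succ, mul_assoc]
  have hz : D ^ (ε2 * (7 / 6 : ℝ) ^ 0) ≤ M := by rwa [pow_zero, mul_one]
  refine ⟨Nat.findGreatest (fun j => D ^ (ε2 * (7 / 6 : ℝ) ^ j) ≤ M) J, Nat.findGreatest_le J,
    Nat.findGreatest_spec (P := fun j => D ^ (ε2 * (7 / 6 : ℝ) ^ j) ≤ M) (Nat.zero_le J) hz, ?_⟩
  rw [hstep]
  rcases Nat.lt_or_ge (Nat.findGreatest (fun j => D ^ (ε2 * (7 / 6 : ℝ) ^ j) ≤ M) J) J with h | h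
  · have := Nat.findGreatest_is_greatest (P := fun j => D ^ (ε2 * (7 / 6 : ℝ) ^ j) ≤ M)
      (Nat.lt_succ_self _) h
    exact (not_le.1 this).le
  · have h2 : Nat.findGreatest (fun j => D ^ (ε2 * (7 / 6 : ℝ) ^ j) ≤ M) J = J :=
      le_antisymm (Nat.findGreatest_le J) h
    rw [h2]
    refine h1.trans (Real.rpow_le_rpow_of_exponent_le hD (by linarith))

/-- the local correlation of the dilated system -/
private theorem locCorr_dil8 {m N : ℕ} [NeZero N] (S : Sys (m + 1)) (c : Fin (m + 1) → ℝ)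
    (f : ZMod N → ℂ) (θ : ZMod N → Fin m → ℝ) (q r0 u' T' K : ℕ) (x : ZMod N) (hq : 1 ≤ q)
    (hu : 1 ≤ u') (hD : 0 < S.D) (hρ : 0 ≤ S.ρ) :
    locCorr (dil S c q r0 u' T') c f θ K x =
      𝔼 i ∈ Ico u' (u' + T'), ‖𝔼 j ∈ range K,
        f (x + (S.a c (Fin.last m) (q * i + r0 + q * j) : ZMod N)) *
        e (∑ i' : Fin m, θ x i' * S.P i'.castSucc *
          (S.t (q * i + r0 + q * j)) ^ (c i'.castSucc))‖ := by
  unfold locCorr
  refine expect_congr rfl fun i _ => ?_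
  congr 1
  refine expect_congr rfl fun j _ => ?_
  have h1 : q * i + r0 + q * j = q * (i + j) + r0 := by ring
  rw [h1, dil_a S c q r0 u' T' (i + j) hq hu hD hρ]
  congr 2
  refine sum_congr rfl fun i' _ => ?_
  rw [mul_assoc, mul_assoc, dil_Pt S c q r0 u' T' (i + j) hq hu hD hρ]

private theorem large8 (a B : ℝ) (ha : 0 < a) : ∃ D1 : ℝ, ∀ D : ℝ, D1 ≤ D → B ≤ D ^ a :=
  Filter.eventually_atTop.1 ((tendsto_rpow_atTop ha).eventually_ge_atTop B)

private theorem IG_mono8 {m : ℕ} {S : Sys m} {c : Fin m → ℝ} {N : ℕ} {x x' : ℝ} {lam : ℕ}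
    (h : IG S c N x lam) (hx : x ≤ x') (hD : 1 ≤ S.D) : IG S c N x' lam where
  good := good_mono28 h.good hx hD
  Q3 := h.Q3.trans (Real.rpow_le_rpow_of_exponent_le hD (by linarith))
  lam1 := h.lam1
  rho := h.rho
  Pint := h.Pint
  prime := h.prime

theorem base_fin (hES : ES0) (m : ℕ) (c : Fin (m + 1) → ℝ) (hc : Ex c) (ε : ℝ) (hε : 0 < ε) :
    ∃ ε1 : ℝ, 0 < ε1 ∧ ∀ n : ℕ,
    ∃ x0 : ℝ, 0 < x0 ∧ ∃ C : ℕ, ∃ σ : ℝ, 0 < σ ∧ ∃ D0 : ℝ,
    ∀ (S : Sys (m + 1)) (N : ℕ) [NeZero N] (lam : ℕ), D0 ≤ S.D → IG S c N x0 lam →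
    ∀ δ : ℝ, S.D ^ (-σ) ≤ δ → δ ≤ 1 / 2 → (lam : ℝ) ≤ δ⁻¹ →
    ∀ X : ℝ, S.Q * S.D ^ (c (Fin.last m) - 1 / 8) ≤ X →
    ∀ f : ZMod N → ℂ, Adm δ⁻¹ X f → ∀ q : ℕ, 1 ≤ q → (q : ℝ) ≤ δ⁻¹ ^ n →
    ∀ (θ : ZMod N → Fin m → ℝ) (E : Finset (ZMod N)),
    (∀ x ∈ E, ∀ i, |θ x i * S.P i.castSucc| ≤ S.D ^ (1 / 4 : ℝ)) →
    (∀ K : ℕ, 1 ≤ K → (K : ℝ) ≤ S.D ^ (1 - ε1) →
      δ ^ n ≤ 𝔼 x, (if x ∈ E then locCorrq S c q f θ K x else 0)) →
    ∀ L : ℕ, 1 ≤ L → (L : ℝ) ≤ S.P (Fin.last m) * S.D ^ (-ε) → δ ^ C ≤ nrm (A L f) := by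
  classical
  have hcm : StrictMono c := fun i j h => by linarith [hc.gap i j h]
  have hc0 : ∀ i, 0 < c i := fun i => by linarith [hc.two i]
  obtain ⟨ε2, hε2, hε2a, hε2b⟩ : ∃ ε2 : ℝ, 0 < ε2 ∧ ε2 ≤ ε / 8 ∧ ε2 ≤ 1 / 16 :=
    ⟨min (ε / 8) (1 / 16), by positivity, min_le_left _ _, min_le_right _ _⟩
  obtain ⟨ε1, hε1, hC⟩ := base_class hES m c hcm hc0 ε2 hε2
  obtain ⟨εK, hεK, hεK1, hεK2⟩ : ∃ εK : ℝ, 0 < εK ∧ εK ≤ ε1 ∧ εK ≤ ε2 :=
    ⟨min ε1 ε2, by positivity, min_le_left _ _, min_le_right _ _⟩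
  refine ⟨εK, hεK, fun n => ?_⟩
  obtain ⟨xk, hxk, σk, hσk, Dk, hclass⟩ := hC εK hεK hεK1
  obtain ⟨xs, hxs, Cs, σs, hσs, Ds, hsmall⟩ :=
    base_small m c hcm hc0 (n + 2) ε2 hε2 hε2b εK hεK hεK2
  obtain ⟨J, hJ1, hJ2⟩ := exists_J28 hε2 hε2b
  obtain ⟨x', hx', hx'k, hx's, hx'1⟩ : ∃ x' : ℝ, 0 < x' ∧ x' ≤ xk ∧ x' ≤ xs ∧ x' ≤ 1 :=
    ⟨min xk (min xs 1), by positivity, min_le_left _ _, (min_le_right _ _).trans (min_le_left _ _),
      (min_le_right _ _).trans (min_le_right _ _)⟩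
  obtain ⟨xd, hxd, σd, hσd, Dd, hdil⟩ := IG.dil c hc0 x' hx'
  obtain ⟨x0, hx0, hx0d, hx0'⟩ : ∃ x0 : ℝ, 0 < x0 ∧ x0 ≤ xd ∧ x0 ≤ x' / 8 :=
    ⟨min xd (x' / 8), by positivity, min_le_left _ _, min_le_right _ _⟩
  obtain ⟨τ, hτ, hτ1, hτ2, hτ3, hτ4, hτ5⟩ : ∃ τ : ℝ, 0 < τ ∧ τ ≤ σd ∧ τ ≤ x' / 8 ∧ τ ≤ σk / 8 ∧
      τ ≤ σs / 8 ∧ τ ≤ 1 / 32 :=
    ⟨min (min σd (x' / 8)) (min (min (σk / 8) (σs / 8)) (1 / 32)), by positivity,
      (min_le_left _ _).trans (min_le_left _ _), (min_le_left _ _).trans (min_le_right _ _),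
      (min_le_right _ _).trans ((min_le_left _ _).trans (min_le_left _ _)),
      (min_le_right _ _).trans ((min_le_left _ _).trans (min_le_right _ _)),
      (min_le_right _ _).trans (min_le_right _ _)⟩
  obtain ⟨σ, hσ, hσn, hσn1, hσ1⟩ : ∃ σ : ℝ, 0 < σ ∧ σ * n ≤ τ ∧ σ * (n + 1) ≤ τ ∧ σ ≤ τ := by
    have hn : (0 : ℝ) < (n : ℝ) + 2 := by positivity
    have hn0 : (0 : ℝ) ≤ (n : ℝ) := Nat.cast_nonneg n
    refine ⟨τ / (n + 2), by positivity, ?_, ?_, ?_⟩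
    · rw [div_mul_eq_mul_div, div_le_iff₀ hn]
      nlinarith
    · rw [div_mul_eq_mul_div, div_le_iff₀ hn]
      nlinarith
    · rw [div_le_iff₀ hn]
      nlinarith
  obtain ⟨D1, hD1⟩ := large8 (1 / 32) 4 (by norm_num)
  obtain ⟨D2, hD2⟩ := large8 (x' / 4) 2 (by positivity)
  obtain ⟨D3, hD3⟩ := large8 (1 / 4) 6 (by norm_num)
  obtain ⟨D4, hD4⟩ := large8 (3 * σk / 8) (2 * ((J : ℝ) + 1)) (by positivity)
  obtain ⟨D5, hD5⟩ := large8 (ε / 2) (4 ^ c (Fin.last m)) (by positivity)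
  obtain ⟨D6, hD6⟩ := large8 (1 / 2) (max Dk Ds) (by norm_num)
  refine ⟨x0, hx0, Cs, σ, hσ, max (max (max D1 D2) (max D3 D4)) (max (max D5 D6) (max Dd 1)), ?_⟩
  intro S N _ lam hSD hIG δ hδ hδ2 hlam X hX f hf q hq1 hq2 θ E hE hcorr L hL1 hL2
  rw [max_le_iff, max_le_iff, max_le_iff, max_le_iff, max_le_iff, max_le_iff, max_le_iff] at hSD
  obtain ⟨⟨⟨hS1, hS2⟩, hS3, hS4⟩, ⟨hS5, hS6⟩, hSd, hSone⟩ := hSD
  have hG := hIG.good
  have hDone : 1 ≤ S.D := hSone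
  have hDpos : 0 < S.D := by linarith
  have hδpos : 0 < δ := lt_of_lt_of_le (Real.rpow_pos_of_pos hDpos _) hδ
  have hmono : ∀ a b : ℝ, a ≤ b → S.D ^ a ≤ S.D ^ b := fun a b h =>
    Real.rpow_le_rpow_of_exponent_le hDone h
  have hδinv : δ⁻¹ ≤ S.D ^ σ := by
    have h5 := inv_anti₀ (Real.rpow_pos_of_pos hDpos _) hδ
    rwa [Real.rpow_neg hDpos.le, inv_inv] at h5
  have hδn : ∀ k : ℕ, S.D ^ (-(σ * k)) ≤ δ ^ k := by
    intro k
    calc S.D ^ (-(σ * k)) = (S.D ^ (-σ)) ^ k := by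
          rw [← Real.rpow_natCast, ← Real.rpow_mul hDpos.le]
          congr 1
          ring
      _ ≤ δ ^ k := pow_le_pow_left₀ (by positivity) hδ _
  have hQpos : (0 : ℝ) < S.Q := lt_of_lt_of_le (Real.rpow_pos_of_pos hDpos _) hG.Q1
  have hqpos : (0 : ℝ) < q := by exact_mod_cast hq1
  have hqone : (1 : ℝ) ≤ q := by exact_mod_cast hq1
  have hqτ : (q : ℝ) ≤ S.D ^ τ := by
    calc (q : ℝ) ≤ δ⁻¹ ^ n := hq2
      _ ≤ (S.D ^ σ) ^ n := pow_le_pow_left₀ (by positivity) hδinv _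
      _ = S.D ^ (σ * n) := by rw [← Real.rpow_natCast, ← Real.rpow_mul hDpos.le]
      _ ≤ S.D ^ τ := hmono _ _ hσn
  have hX0 : 0 < X := lt_of_lt_of_le (by positivity) hX
  -- the interval of the dilated systems
  obtain ⟨u', hu'⟩ : ∃ u', u' = S.u / q + 1 := ⟨_, rfl⟩
  obtain ⟨T', hT'⟩ : ∃ T', T' = (S.u + S.T) / q - 1 - u' := ⟨_, rfl⟩
  have ha1 := Nat.div_add_mod S.u q
  have ha2 := Nat.mod_lt S.u hq1
  have hb1 := Nat.div_add_mod (S.u + S.T) q
  have hb2 := Nat.mod_lt (S.u + S.T) hq1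
  have g1 : S.u ≤ q * u' := by
    rw [hu', Nat.mul_add, mul_one]
    omega
  have g3 : S.T ≤ q * T' + 3 * q := by
    have h5 : (S.u + S.T) / q ≤ T' + 2 + S.u / q := by omega
    have h6 := Nat.mul_le_mul_left q h5
    rw [Nat.mul_add, Nat.mul_add] at h6
    omega
  have g3r : (S.T : ℝ) ≤ q * T' + 3 * q := by exact_mod_cast g3
  have hTbig : S.D ^ (1 - x' / 8) ≤ S.T := (hmono _ _ (by linarith)).trans hG.T1
  have gT : S.D ^ (1 - x' / 2) ≤ T' := by
    have h5 : S.D ^ (1 - x' / 4) * q ≤ S.T := by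
      calc S.D ^ (1 - x' / 4) * q ≤ S.D ^ (1 - x' / 4) * S.D ^ (x' / 8) :=
            mul_le_mul_of_nonneg_left (hqτ.trans (hmono _ _ hτ2)) (by positivity)
        _ = S.D ^ (1 - x' / 8) := by
            rw [← Real.rpow_add hDpos]
            congr 1
            ring
        _ ≤ S.T := hTbig
    have h6 : S.D ^ (1 - x' / 4) ≤ T' + 3 := by
      have : S.D ^ (1 - x' / 4) * q ≤ (T' + 3) * q := by linarith
      exact le_of_mul_le_mul_right this hqpos
    have h7 : S.D ^ (1 - x' / 4) = S.D ^ (1 - x' / 2) * S.D ^ (x' / 4) := by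
      rw [← Real.rpow_add hDpos]
      congr 1
      ring
    have h8 := hD2 S.D hS2
    have h9 : (3 : ℝ) ≤ S.D ^ (1 - x' / 2) := by
      have := hD3 S.D hS3
      have := hmono (1 / 4) (1 - x' / 2) (by linarith)
      linarith
    have h10 := mul_le_mul_of_nonneg_left h8 (show 0 ≤ S.D ^ (1 - x' / 2) by positivity)
    linarith
  have hT'pos : 0 < T' := by
    have : (0 : ℝ) < T' := lt_of_lt_of_le (Real.rpow_pos_of_pos hDpos _) gT
    exact_mod_cast this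
  have g2 : q * (u' + T') + q ≤ S.u + S.T := by
    have h5 : u' + T' + 1 = (S.u + S.T) / q := by omega
    calc q * (u' + T') + q = q * (u' + T' + 1) := by ring
      _ ≤ S.u + S.T := by
          rw [h5]
          omega
  have g4 : T' ≤ u' := by
    have h5 : S.T ≤ S.u := by
      have : (S.T : ℝ) ≤ S.u := by linarith [hG.u1, hG.u2]
      exact_mod_cast this
    have h6 : (S.u + S.T) / q ≤ 2 * (S.u / q) + 1 := by
      have h7 : S.u + S.T < q * (2 * (S.u / q) + 2) := by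
        have : q * (2 * (S.u / q) + 2) = 2 * (q * (S.u / q)) + 2 * q := by ring
        rw [this]
        omega
      have := Nat.div_lt_of_lt_mul h7
      omega
    omega
  have hu'pos : 1 ≤ u' := by omega
  have hTpos : 0 < S.T := by
    have : (0 : ℝ) < S.T := lt_of_lt_of_le (Real.rpow_pos_of_pos hDpos _) hG.T1
    exact_mod_cast this
  have hTrpos : (0 : ℝ) < S.T := by exact_mod_cast hTpos
  have hdil' := fun r0 (hr0 : r0 < q) => hdil S N lam hSd (IG_mono8 hIG hx0d hDone) q r0 u' T' hq1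
    (hqτ.trans (hmono _ _ hτ1)) hr0 (by omega) (by omega) g4 gT
  -- the new scale
  obtain ⟨D', hD'⟩ : ∃ D' : ℝ, D' = ((u' : ℝ) + T') / 2 := ⟨_, rfl⟩
  have hdD : ∀ r0, (dil S c q r0 u' T').D = D' := fun r0 => hD'.symm
  have hD'le : D' ≤ S.D := by
    have h5 := (hdil' 0 (by omega)).2.2.1
    rw [hdD] at h5
    exact h5.trans (div_le_self hDpos.le hqone)
  have hD'ge : S.D ^ (15 / 16 : ℝ) ≤ D' := by
    have h5 := (hdil' 0 (by omega)).2.1
    rw [hdD] at h5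
    refine le_trans ?_ h5
    rw [le_div_iff₀ (by positivity)]
    calc S.D ^ (15 / 16 : ℝ) * (4 * q) ≤ S.D ^ (15 / 16 : ℝ) * (S.D ^ (1 / 32 : ℝ) * S.D ^ τ) :=
          mul_le_mul_of_nonneg_left (mul_le_mul (hD1 S.D hS1) hqτ hqpos.le (by positivity))
            (by positivity)
      _ = S.D ^ (15 / 16 + (1 / 32 + τ)) := by
          rw [← Real.rpow_add hDpos, ← Real.rpow_add hDpos]
      _ ≤ S.D ^ (1 : ℝ) := hmono _ _ (by linarith)
      _ = S.D := Real.rpow_one _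
  have hD'half : S.D ^ (1 / 2 : ℝ) ≤ D' := (hmono _ _ (by norm_num)).trans hD'ge
  have hD'one : 1 ≤ D' := (Real.one_le_rpow hDone (by norm_num)).trans hD'half
  have hD'pos : 0 < D' := by linarith
  have hmono' : ∀ a b : ℝ, a ≤ b → D' ^ a ≤ D' ^ b := fun a b h =>
    Real.rpow_le_rpow_of_exponent_le hD'one h
  have hpow' : ∀ a : ℝ, 0 ≤ a → S.D ^ (a / 2) ≤ D' ^ a := by
    intro a ha
    calc S.D ^ (a / 2) = (S.D ^ (1 / 2 : ℝ)) ^ a := by
          rw [← Real.rpow_mul hDpos.le]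
          congr 1
          ring
      _ ≤ D' ^ a := Real.rpow_le_rpow (by positivity) hD'half ha
  have hneg' : ∀ a : ℝ, 0 ≤ a → D' ^ (-a) ≤ S.D ^ (-(a / 2)) := by
    intro a ha
    rw [Real.rpow_neg hD'pos.le, Real.rpow_neg hDpos.le]
    exact inv_anti₀ (Real.rpow_pos_of_pos hDpos _) (hpow' a ha)
  -- the window length
  have hKr : (1 : ℝ) ≤ D' ^ (1 - εK) := Real.one_le_rpow hD'one (by linarith)
  have hKK : (1 : ℕ) ≤ ⌊D' ^ (1 - εK)⌋₊ := Nat.le_floor (by exact_mod_cast hKr)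
  have hK1 : ((⌊D' ^ (1 - εK)⌋₊ : ℕ) : ℝ) ≤ D' ^ (1 - εK) := Nat.floor_le (by linarith)
  have hK2 : D' ^ (1 - εK) ≤ ((⌊D' ^ (1 - εK)⌋₊ : ℕ) : ℝ) + 1 := (Nat.lt_floor_add_one _).le
  generalize ⌊D' ^ (1 - εK)⌋₊ = K at hKK hK1 hK2
  have hcorr' := hcorr K hKK (hK1.trans (Real.rpow_le_rpow hD'pos.le hD'le (by linarith)))
  -- passing to one residue class
  have hloc : ∀ x, (if x ∈ E then locCorrq S c q f θ K x else 0) ≤
      𝔼 r ∈ range q, (if x ∈ E then locCorr (dil S c q r u' T') c f θ K x else 0) +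
        3 * q / S.T := by
    intro x
    by_cases hx : x ∈ E
    · simp only [if_pos hx]
      have h5 := avg_split8 S.u S.T q u' T' hq1 hTpos hT'pos g1 (by omega) g3
        (fun k => ‖𝔼 j ∈ range K, f (x + (S.a c (Fin.last m) (k + q * j) : ZMod N)) *
          e (∑ i : Fin m, θ x i * S.P i.castSucc * (S.t (k + q * j)) ^ (c i.castSucc))‖)
        (fun k => norm_nonneg _) (fun k => ?_)
      · unfold locCorrq Sys.I
        refine h5.trans (le_of_eq ?_)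
        congr 1
        refine expect_congr rfl fun r _ => ?_
        rw [locCorr_dil8 S c f θ q r u' T' K x hq1 hu'pos hDpos hG.ρ0]
      · refine norm_expect_le_of5 _ _ zero_le_one fun j _ => ?_
        rw [norm_mul, norm_e, mul_one]
        exact hf.bdd _
    · simp only [if_neg hx, expect_const_zero, zero_add]
      positivity
  have hsum : 𝔼 x, (if x ∈ E then locCorrq S c q f θ K x else 0) ≤
      𝔼 r ∈ range q, 𝔼 x, (if x ∈ E then locCorr (dil S c q r u' T') c f θ K x else 0) +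
        3 * q / S.T := by
    refine (expect_le_expect fun x _ => hloc x).trans (le_of_eq ?_)
    rw [expect_add_distrib, expect_const univ_nonempty, expect_comm]
  have hsmallT : 3 * (q : ℝ) / S.T ≤ δ ^ n / 2 := by
    rw [div_le_iff₀ hTrpos]
    have h5 : S.D ^ (-τ) ≤ δ ^ n := (hmono _ _ (by linarith)).trans (hδn n)
    have h6 : S.D ^ (7 / 8 : ℝ) ≤ S.T := (hmono _ _ (by linarith)).trans hTbig
    have h7 := hD3 S.D hS3
    calc 3 * (q : ℝ) = 6 * q / 2 := by ring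
      _ ≤ S.D ^ (1 / 4 : ℝ) * S.D ^ τ / 2 := by
          have := mul_le_mul h7 hqτ hqpos.le (by positivity)
          linarith
      _ = S.D ^ (1 / 4 + τ) / 2 := by rw [← Real.rpow_add hDpos]
      _ ≤ S.D ^ (-τ + 7 / 8) / 2 := by
          have := hmono (1 / 4 + τ) (-τ + 7 / 8) (by linarith)
          linarith
      _ = S.D ^ (-τ) / 2 * S.D ^ (7 / 8 : ℝ) := by
          rw [Real.rpow_add hDpos]
          ring
      _ ≤ δ ^ n / 2 * S.T := mul_le_mul (by linarith) h6 (by positivity) (by positivity)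
  obtain ⟨r, hr, hrE⟩ : ∃ r ∈ range q, δ ^ n / 2 ≤
      𝔼 x, (if x ∈ E then locCorr (dil S c q r u' T') c f θ K x else 0) := by
    have h5 : δ ^ n / 2 ≤ 𝔼 r ∈ range q,
        𝔼 x, (if x ∈ E then locCorr (dil S c q r u' T') c f θ K x else 0) := by linarith
    exact exists_le_of_le_expect (nonempty_range_iff.2 (by omega)) h5
  rw [mem_range] at hr
  obtain ⟨hIG', -, -, hP'⟩ := hdil' r hr
  have hdDr := hdD r
  obtain ⟨S', hS'⟩ : ∃ S' : Sys (m + 1), S' = dil S c q r u' T' := ⟨_, rfl⟩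
  rw [← hS'] at hIG' hP' hrE hdDr
  have hQ' : S'.Q = S.Q := by rw [hS']; rfl
  have hG' := hIG'.good
  have hX' : (S'.Q : ℝ) * S'.D ^ (c (Fin.last m) - 1 / 4) ≤ X := by
    rw [hQ', hdDr]
    refine le_trans (mul_le_mul_of_nonneg_left ?_ hQpos.le) hX
    have h5 := hc.two (Fin.last m)
    exact (hmono' _ _ (by linarith)).trans (Real.rpow_le_rpow hD'pos.le hD'le (by linarith))
  have hP0 : ∀ i, 0 ≤ S.P i := fun i => le_trans (by positivity) (hG.P1 i)
  have hP0' : ∀ i, 0 ≤ S'.P i := fun i =>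
    le_trans (mul_nonneg (hP0 i) (by positivity)) (hP' i).1
  have hv : ∀ x ∈ E, ∀ i : Fin m, |θ x i * S'.P i.castSucc| ≤ D' ^ (2 / 7 : ℝ) := by
    intro x hx i
    have h5 : |θ x i * S'.P i.castSucc| ≤ |θ x i * S.P i.castSucc| := by
      rw [abs_mul, abs_mul, abs_of_nonneg (hP0' _), abs_of_nonneg (hP0 _)]
      exact mul_le_mul_of_nonneg_left (hP' _).2 (abs_nonneg _)
    refine h5.trans ((hE x hx i).trans ?_)
    calc S.D ^ (1 / 4 : ℝ) ≤ S.D ^ (15 / 16 * (2 / 7) : ℝ) := hmono _ _ (by norm_num)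
      _ = (S.D ^ (15 / 16 : ℝ)) ^ (2 / 7 : ℝ) := Real.rpow_mul hDpos.le _ _
      _ ≤ D' ^ (2 / 7 : ℝ) := Real.rpow_le_rpow (by positivity) hD'ge (by norm_num)
  -- the classes
  set Es : Finset (ZMod N) := E.filter fun x => ∀ i, |θ x i * S'.P i.castSucc| ≤ D' ^ ε2
    with hEs
  set Ek : ℕ → Finset (ZMod N) := fun j => E.filter fun x =>
    (∀ i, |θ x i * S'.P i.castSucc| ≤ (D' ^ (ε2 * (7 / 6 : ℝ) ^ j)) ^ (7 / 6 : ℝ)) ∧
      ∃ i, D' ^ (ε2 * (7 / 6 : ℝ) ^ j) ≤ |θ x i * S'.P i.castSucc| with hEk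
  have pk : ∀ j ∈ range (J + 1),
      𝔼 x, (if x ∈ Ek j then locCorr S' c f θ K x else 0) ≤ D' ^ (-σk) := by
    intro j hj
    rw [Finset.mem_range] at hj
    rw [← hdDr]
    refine hclass S' N ?_ (good_mono28 hG' hx'k (by rw [hdDr]; exact hD'one)) X hX' _
      (hf.mono ?_ hX0 le_rfl) θ (D' ^ (ε2 * (7 / 6 : ℝ) ^ j))
      ?_ ?_ (Ek j) (fun x hx => (Finset.mem_filter.1 hx).2) K (by rw [hdDr]; exact hK2)
      (by rw [hdDr]; exact hK1)
    · rw [hdDr]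
      exact (le_max_left _ _).trans ((hD6 S.D hS6).trans hD'half)
    · rw [hdDr]
      refine hδinv.trans (le_trans (hmono _ _ ?_) (hpow' σk hσk.le))
      linarith
    · rw [hdDr]
      refine hmono' _ _ ?_
      exact le_mul_of_one_le_right hε2.le (one_le_pow₀ (by norm_num))
    · rw [hdDr, ← Real.rpow_mul hD'pos.le]
      refine hmono' _ _ ?_
      have := hJ2 j (by omega)
      linarith
  have hcover : ∀ x, (if x ∈ E then locCorr S' c f θ K x else 0) ≤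
      ∑ j ∈ range (J + 1), (if x ∈ Ek j then locCorr S' c f θ K x else 0) +
      (if x ∈ Es then locCorr S' c f θ K x else 0) := by
    intro x
    have hn := locCorr_nonneg28 S' c f θ K x
    have n2 : ∀ j, 0 ≤ (if x ∈ Ek j then locCorr S' c f θ K x else 0) := fun j => by
      split_ifs <;> [exact hn; exact le_rfl]
    have n2' : 0 ≤ ∑ j ∈ range (J + 1), (if x ∈ Ek j then locCorr S' c f θ K x else 0) :=
      Finset.sum_nonneg fun j _ => n2 j
    have n3 : 0 ≤ (if x ∈ Es then locCorr S' c f θ K x else 0) := by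
      split_ifs <;> [exact hn; exact le_rfl]
    by_cases hxE : x ∈ E
    · rw [if_pos hxE]
      by_cases hxs' : x ∈ Es
      · rw [if_pos hxs'] at n3 ⊢
        linarith
      rw [hEs, Finset.mem_filter] at hxs'
      push Not at hxs'
      obtain ⟨i0, hi0⟩ := hxs' hxE
      obtain ⟨i1, -, hi1⟩ := Finset.exists_max_image (univ : Finset (Fin m))
        (fun i => |θ x i * S'.P i.castSucc|) ⟨i0, Finset.mem_univ _⟩
      obtain ⟨j, hjJ, hj1, hj2⟩ := cover8 hD'one hJ1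
        (le_trans hi0.le (hi1 i0 (Finset.mem_univ _))) (hv x hxE i1)
      have hxj : x ∈ Ek j := by
        rw [hEk, Finset.mem_filter]
        exact ⟨hxE, fun i => (hi1 i (Finset.mem_univ _)).trans hj2, i1, hj1⟩
      have h5 := Finset.single_le_sum (f := fun j => if x ∈ Ek j then
        locCorr S' c f θ K x else 0) (fun j _ => n2 j)
        (Finset.mem_range.2 (show j < J + 1 by omega))
      simp only [if_pos hxj] at h5
      linarith
    · rw [if_neg hxE]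
      linarith
  have hsum2 : 𝔼 x, (if x ∈ E then locCorr S' c f θ K x else 0) ≤
      ∑ j ∈ range (J + 1), 𝔼 x, (if x ∈ Ek j then locCorr S' c f θ K x else 0) +
      𝔼 x, (if x ∈ Es then locCorr S' c f θ K x else 0) := by
    refine le_trans (Finset.expect_le_expect fun x _ => hcover x) ?_
    rw [Finset.expect_add_distrib, Finset.expect_sum_comm]
  have hk' : ∑ j ∈ range (J + 1), 𝔼 x, (if x ∈ Ek j then locCorr S' c f θ K x
      else 0) ≤ ((J : ℝ) + 1) * D' ^ (-σk) := by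
    refine le_trans (Finset.sum_le_sum pk) ?_
    rw [Finset.sum_const, Finset.card_range, nsmul_eq_mul]
    push_cast
    exact le_rfl
  have hhalf : ((J : ℝ) + 1) * D' ^ (-σk) ≤ δ ^ (n + 1) / 2 := by
    have h5 : S.D ^ (-(σk / 8)) ≤ δ ^ (n + 1) := by
      refine (hmono _ _ ?_).trans (hδn (n + 1))
      push_cast
      linarith
    have h6 := hneg' σk hσk.le
    have h7 : S.D ^ (-(σk / 8)) = S.D ^ (-(σk / 2)) * S.D ^ (3 * σk / 8) := by
      rw [← Real.rpow_add hDpos]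
      congr 1
      ring
    have h8 := hD4 S.D hS4
    have h9 : 0 < S.D ^ (-(σk / 2)) := Real.rpow_pos_of_pos hDpos _
    have h10 : ((J : ℝ) + 1) * D' ^ (-σk) ≤ ((J : ℝ) + 1) * S.D ^ (-(σk / 2)) :=
      mul_le_mul_of_nonneg_left h6 (by positivity)
    have h11 := mul_le_mul_of_nonneg_left h8 h9.le
    linarith
  have hsmallpart : δ ^ (n + 2) ≤ 𝔼 x, (if x ∈ Es then locCorr S' c f θ K x else 0) := by
    have h5 : δ ^ (n + 1) ≤ δ ^ n / 2 := by
      rw [pow_succ]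
      have := mul_le_mul_of_nonneg_left hδ2 (show 0 ≤ δ ^ n by positivity)
      linarith
    have h6 : δ ^ (n + 2) ≤ δ ^ (n + 1) / 2 := by
      rw [pow_succ δ (n + 1)]
      have := mul_le_mul_of_nonneg_left hδ2 (show 0 ≤ δ ^ (n + 1) by positivity)
      linarith
    linarith
  refine hsmall S' N ?_ (good_mono28 hG' hx's (by rw [hdDr]; exact hD'one)) δ ?_ hδ2
    X hX' _ hf θ Es (fun x hx => by rw [hdDr]; exact (Finset.mem_filter.1 hx).2) K
    (by rw [hdDr]; exact hK2) (by rw [hdDr]; exact hK1) hsmallpart L hL1 (hL2.trans ?_)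
  · rw [hdDr]
    exact (le_max_right _ _).trans ((hD6 S.D hS6).trans hD'half)
  · rw [hdDr]
    refine (hneg' σs hσs.le).trans ((hmono _ _ ?_).trans hδ)
    linarith
  · rw [hdDr]
    have h5 := (hP' (Fin.last m)).1
    have h6 := hD5 S.D hS5
    have h7 : (4 : ℝ) ^ (-c (Fin.last m)) * 4 ^ c (Fin.last m) = 1 := by
      rw [← Real.rpow_add (by norm_num), neg_add_cancel, Real.rpow_zero]
    have h8 : (0 : ℝ) < 4 ^ (-c (Fin.last m)) := by positivity
    have h9 : S.D ^ (-(4 * ε2)) ≤ D' ^ (-(4 * ε2)) :=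
      Real.rpow_le_rpow_of_nonpos hD'pos hD'le (by linarith)
    have h10 : S.D ^ (-ε) ≤ 4 ^ (-c (Fin.last m)) * S.D ^ (-(4 * ε2)) := by
      calc S.D ^ (-ε) ≤ S.D ^ (-(ε / 2)) * S.D ^ (-(4 * ε2)) := by
            rw [← Real.rpow_add hDpos]
            exact hmono _ _ (by linarith)
        _ ≤ 4 ^ (-c (Fin.last m)) * S.D ^ (-(4 * ε2)) := by
            refine mul_le_mul_of_nonneg_right ?_ (by positivity)
            rw [Real.rpow_neg hDpos.le, inv_le_comm₀ (by positivity) h8,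
              Real.rpow_neg (by norm_num), inv_inv]
            exact h6
    calc S.P (Fin.last m) * S.D ^ (-ε) ≤
          S.P (Fin.last m) * (4 ^ (-c (Fin.last m)) * S.D ^ (-(4 * ε2))) :=
          mul_le_mul_of_nonneg_left h10 (hP0 _)
      _ = (S.P (Fin.last m) * 4 ^ (-c (Fin.last m))) * S.D ^ (-(4 * ε2)) := by ring
      _ ≤ S'.P (Fin.last m) * D' ^ (-(4 * ε2)) := mul_le_mul h5 h9 (by positivity) (hP0' _)

end

end Pool.Agent.Helper67.NX2
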