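import Pool.Agent.Helper67.NX2.DefsB

/-!
# Project NX2: peeling off large primes (NX2-B16), with the local theorem as a hypothesis
-/

set_option autoImplicit false

open Finset
open scoped BigOperators ComplexConjugate

namespace Pool.Agent.Helper67.NX2

open Pool.Agent.Helper57.NX

noncomputable section

/-- the conclusion of `local_thm` -/
def LocThm8 (s : ℕ) (d : Fin (s + 1) → ℕ) : Prop :=
    ∃ C : ℕ, ∀ δ : ℝ, 0 < δ → δ ≤ 1 / 2 →
    ∀ K : ℕ, 1 ≤ K → (K : ℝ) ≤ δ⁻¹ → ∀ (M : ℕ) [NeZero M] (φ : Option (Fin (s + 1)) → ZMod M → ℝ),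
    (∀ o x, |φ o x| ≤ 1) → δ ≤ |lfm d K M φ| →
    ∃ q : ℕ, 1 ≤ q ∧ (q : ℝ) ≤ δ⁻¹ ^ C ∧ ∀ o,
      δ ^ C ≤ 𝔼 x : ZMod M, |𝔼 a : ZMod M, φ o (x + (q : ZMod M) * a)|

private theorem abs_lfm_le8 {s : ℕ} (d : Fin s → ℕ) (K M : ℕ) [NeZero M]
    (φ : Option (Fin s) → ZMod M → ℝ) (W : Option (Fin s) → ℝ) (h : ∀ o x, |φ o x| ≤ W o) :
    |lfm d K M φ| ≤ ∏ o, W o := by
  unfold lfm
  refine (abs_expect_le _ _).trans (expect_le univ_nonempty fun ρ _ => ?_)
  refine (abs_expect_le _ _).trans (expect_le univ_nonempty fun κ _ => ?_)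
  rw [abs_prod]
  exact prod_le_prod (fun o _ => abs_nonneg _) fun o _ => h o _

private theorem lfm_mul8 {s : ℕ} (d : Fin s → ℕ) (K M : ℕ) [NeZero M]
    (φ : Option (Fin s) → ZMod M → ℝ) (W : Option (Fin s) → ℝ) :
    lfm d K M (fun o x => W o * φ o x) = (∏ o, W o) * lfm d K M φ := by
  unfold lfm
  simp only [prod_mul_distrib, mul_expect]

private theorem lfm_upd8 {s : ℕ} (d : Fin s → ℕ) (K M : ℕ) [NeZero M]
    (g : Option (Fin s) → ZMod M → ℝ) (o0 : Option (Fin s)) (f1 f2 : ZMod M → ℝ) :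
    lfm d K M (fun o x => if o = o0 then f1 x else g o x) -
      lfm d K M (fun o x => if o = o0 then f2 x else g o x) =
      lfm d K M (fun o x => if o = o0 then f1 x - f2 x else g o x) := by
  unfold lfm
  rw [← expect_sub_distrib]
  refine expect_congr rfl fun ρ _ => ?_
  rw [← expect_sub_distrib]
  refine expect_congr rfl fun κ _ => ?_
  have key : ∀ f : ZMod M → ℝ, (∏ o : Option (Fin s), if o = o0 then
      f (ρ + sh d ((K : ZMod M) * κ) o) else g o (ρ + sh d ((K : ZMod M) * κ) o)) =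
      f (ρ + sh d ((K : ZMod M) * κ) o0) *
        ∏ o ∈ univ.erase o0, g o (ρ + sh d ((K : ZMod M) * κ) o) := by
    intro f
    rw [← mul_prod_erase univ _ (mem_univ o0), if_pos rfl]
    congr 1
    refine prod_congr rfl fun o ho => ?_
    rw [if_neg (ne_of_mem_erase ho)]
  rw [key f1, key f2, key (fun x => f1 x - f2 x)]
  ring

private theorem lfm_small8 (s : ℕ) (d : Fin (s + 1) → ℕ) (hloc : LocThm8 s d) : ∃ c : ℝ, 0 < c ∧ ∀ (y N : ℕ) [NeZero N], 1 ≤ y →
    (∀ p : ℕ, p.Prime → p ∣ N → y < p) →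
    ∀ φ : Option (Fin (s + 1)) → ZMod N → ℝ, (∀ o x, |φ o x| ≤ 1) →
    ∀ o0, 𝔼 x, φ o0 x = 0 → |lfm d 1 N φ| ≤ 2 * (y : ℝ) ^ (-c) := by
  obtain ⟨C, hC⟩ := hloc
  have hC1 : (0 : ℝ) < (C : ℝ) + 1 := by positivity
  refine ⟨1 / (C + 1), by positivity, ?_⟩
  intro y N _ hy hN φ hφ o0 h0
  have hy1 : (1 : ℝ) ≤ y := by exact_mod_cast hy
  have hy0 : (0 : ℝ) < y := by linarith
  obtain ⟨δ, hδ⟩ : ∃ δ : ℝ, δ = (y : ℝ) ^ (-(1 / ((C : ℝ) + 1))) := ⟨_, rfl⟩
  rw [← hδ]
  have hδpos : 0 < δ := by rw [hδ]; positivity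
  by_contra hcon
  push Not at hcon
  have h1 : |lfm d 1 N φ| ≤ 1 := by
    have := abs_lfm_le8 d 1 N φ (fun _ => 1) hφ
    simpa using this
  have hδ2 : δ ≤ 1 / 2 := by linarith
  have hδinv1 : 1 ≤ δ⁻¹ := (one_le_inv₀ hδpos).2 (by linarith)
  obtain ⟨q, hq1, hq2, hq3⟩ := hC δ hδpos hδ2 1 le_rfl (by simpa using hδinv1) N φ hφ (by linarith)
  have hqy : (q : ℝ) ≤ y := by
    refine hq2.trans ?_
    have h2 : δ⁻¹ = (y : ℝ) ^ (1 / ((C : ℝ) + 1)) := by
      rw [hδ, Real.rpow_neg hy0.le, inv_inv]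
    rw [h2, ← Real.rpow_natCast, ← Real.rpow_mul hy0.le]
    calc (y : ℝ) ^ (1 / ((C : ℝ) + 1) * C) ≤ (y : ℝ) ^ (1 : ℝ) := by
          refine Real.rpow_le_rpow_of_exponent_le hy1 ?_
          rw [one_div, inv_mul_le_iff₀ hC1]
          linarith
      _ = y := Real.rpow_one _
  have hqy' : q ≤ y := by exact_mod_cast hqy
  have hcop : Nat.Coprime q N := by
    by_contra hc
    obtain ⟨p, hp, hpq, hpN⟩ := Nat.Prime.not_coprime_iff_dvd.1 hc
    have h2 := hN p hp hpN
    have h3 := Nat.le_of_dvd (by omega) hpq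
    omega
  have hu : IsUnit (q : ZMod N) := (ZMod.isUnit_iff_coprime q N).2 hcop
  have h4 : ∀ x, 𝔼 a : ZMod N, φ o0 (x + (q : ZMod N) * a) = 0 := by
    intro x
    rw [← h0]
    exact Fintype.expect_equiv ((Units.mulLeft hu.unit).trans (Equiv.addLeft x)) _ _ fun _ => rfl
  have h5 := hq3 o0
  simp only [h4, abs_zero, expect_const_zero] at h5
  have h6 : 0 < δ ^ C := by positivity
  linarith

private theorem peel_in8 (s : ℕ) (d : Fin (s + 1) → ℕ) (hloc : LocThm8 s d) : ∃ c : ℝ, 0 < c ∧ ∀ (y N : ℕ) [NeZero N], 1 ≤ y →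
    (∀ p : ℕ, p.Prime → p ∣ N → y < p) → ∀ V : ℝ, 0 < V →
    ∀ φ : Option (Fin (s + 1)) → ZMod N → ℝ, (∀ o x, |φ o x| ≤ V) →
    |lfm d 1 N φ - ∏ o, 𝔼 x, φ o x| ≤ (s + 2) * (4 * V ^ (s + 2) * (y : ℝ) ^ (-c)) := by
  classical
  obtain ⟨c, hc, hsm⟩ := lfm_small8 s d hloc
  refine ⟨c, hc, ?_⟩
  intro y N _ hy hN V hV φ hφ
  obtain ⟨mm, hmm⟩ : ∃ mm : Option (Fin (s + 1)) → ℝ, ∀ o, mm o = 𝔼 x, φ o x := ⟨_, fun _ => rfl⟩
  have hmV : ∀ o, |mm o| ≤ V := by
    intro o
    rw [hmm]
    exact (abs_expect_le _ _).trans (expect_le univ_nonempty fun x _ => hφ o x)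
  have key : ∀ S : Finset (Option (Fin (s + 1))),
      |lfm d 1 N φ - lfm d 1 N (fun o x => if o ∈ S then mm o else φ o x)| ≤
        (S.card : ℝ) * (4 * V ^ (s + 2) * (y : ℝ) ^ (-c)) := by
    intro S
    induction S using Finset.induction_on with
    | empty => simp
    | insert o0 S ho0 ih =>
      have h1 : lfm d 1 N (fun o x => if o ∈ S then mm o else φ o x) =
          lfm d 1 N (fun o x => if o = o0 then φ o0 x else (if o ∈ S then mm o else φ o x)) := by
        congr 1
        funext o x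
        by_cases h : o = o0
        · rw [h, if_neg ho0, if_pos rfl]
        · rw [if_neg h]
      have h2 : lfm d 1 N (fun o x => if o ∈ insert o0 S then mm o else φ o x) =
          lfm d 1 N (fun o x => if o = o0 then mm o0 else (if o ∈ S then mm o else φ o x)) := by
        congr 1
        funext o x
        by_cases h : o = o0
        · rw [h, if_pos (mem_insert_self _ _), if_pos rfl]
        · rw [if_neg h]
          by_cases h' : o ∈ S
          · rw [if_pos h', if_pos (mem_insert_of_mem h')]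
          · rw [if_neg h', if_neg (by simp [h, h'])]
      have h3 := lfm_upd8 d 1 N (fun o x => if o ∈ S then mm o else φ o x) o0 (φ o0)
        (fun _ => mm o0)
      rw [← h1, ← h2] at h3
      -- the scaled functions
      have h4 : lfm d 1 N (fun o x => if o = o0 then φ o0 x - mm o0 else
          (if o ∈ S then mm o else φ o x)) =
          (∏ o, (if o = o0 then 2 * V else V)) * lfm d 1 N (fun o x => if o = o0 then
            (φ o0 x - mm o0) / (2 * V) else (if o ∈ S then mm o else φ o x) / V) := by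
        rw [← lfm_mul8]
        congr 1
        funext o x
        by_cases h : o = o0
        · rw [if_pos h, if_pos h, if_pos h]
          field_simp
        · rw [if_neg h, if_neg h, if_neg h]
          field_simp
      have h5 : (∏ o : Option (Fin (s + 1)), (if o = o0 then 2 * V else V)) =
          2 * V ^ (s + 2) := by
        rw [← mul_prod_erase univ _ (mem_univ o0), if_pos rfl,
          prod_congr rfl (fun o ho => if_neg (ne_of_mem_erase ho)), prod_const,
          card_erase_of_mem (mem_univ _), card_univ, Fintype.card_option, Fintype.card_fin]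
        have : s + 1 + 1 - 1 = s + 1 := by omega
        rw [this]
        ring
      have h6 := hsm y N hy hN (fun o x => if o = o0 then
            (φ o0 x - mm o0) / (2 * V) else (if o ∈ S then mm o else φ o x) / V) (by
        intro o x
        by_cases h : o = o0
        · simp only [if_pos h]
          rw [abs_div, abs_of_pos (by positivity : 0 < 2 * V), div_le_one (by positivity)]
          calc |φ o0 x - mm o0| ≤ |φ o0 x| + |mm o0| := abs_sub _ _
            _ ≤ 2 * V := by linarith [hφ o0 x, hmV o0]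
        · simp only [if_neg h]
          rw [abs_div, abs_of_pos hV, div_le_one hV]
          split_ifs
          · exact hmV o
          · exact hφ o x) o0 (by
        simp only [if_true]
        rw [← expect_div, expect_sub_distrib, expect_const univ_nonempty, ← hmm, sub_self,
          zero_div])
      have h7 : |lfm d 1 N (fun o x => if o ∈ S then mm o else φ o x) -
          lfm d 1 N (fun o x => if o ∈ insert o0 S then mm o else φ o x)| ≤
          4 * V ^ (s + 2) * (y : ℝ) ^ (-c) := by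
        rw [h3, h4, h5, abs_mul, abs_of_pos (by positivity : 0 < 2 * V ^ (s + 2))]
        have := mul_le_mul_of_nonneg_left h6 (show 0 ≤ 2 * V ^ (s + 2) by positivity)
        linarith
      rw [card_insert_of_notMem ho0]
      have h8 := abs_sub_le (lfm d 1 N φ) (lfm d 1 N (fun o x => if o ∈ S then mm o else φ o x))
        (lfm d 1 N (fun o x => if o ∈ insert o0 S then mm o else φ o x))
      push_cast
      linarith
  have h9 := key univ
  have h10 : lfm d 1 N (fun o x => if o ∈ (univ : Finset (Option (Fin (s + 1)))) then mm o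
      else φ o x) = ∏ o, 𝔼 x, φ o x := by
    simp only [mem_univ, if_true]
    unfold lfm
    simp only [expect_const univ_nonempty]
    exact prod_congr rfl fun o _ => hmm o
  rw [h10, card_univ, Fintype.card_option, Fintype.card_fin] at h9
  push_cast at h9
  have : (s : ℝ) + 1 + 1 = s + 2 := by ring
  rwa [this] at h9

theorem peel_of8 (s : ℕ) (d : Fin (s + 1) → ℕ) (hloc : LocThm8 s d) : ∃ c : ℝ, 0 < c ∧ ∃ C : ℝ, 0 < C ∧
    ∀ (V : ℝ) (y K M N : ℕ) [NeZero M] [NeZero (M * N)], 0 ≤ V → 1 ≤ y → 1 ≤ K →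
    Nat.Coprime M N → Nat.Coprime K N → (∀ p : ℕ, p.Prime → p ∣ N → y < p) →
    ∀ H : Option (Fin (s + 1)) → ZMod (M * N) → ℝ, (∀ o x, |H o x| ≤ V) →
    |lfm d K (M * N) H - lfm d K M (fun o => fav M (H o))| ≤ C * V ^ (s + 2) * (y : ℝ) ^ (-c) := by
  classical
  obtain ⟨c, hc, hin⟩ := peel_in8 s d hloc
  refine ⟨c, hc, (s + 2) * 4, by positivity, ?_⟩
  intro V y K M N _ _ hV hy hK hMN hKN hN H hH
  have hN0 : N ≠ 0 := by
    rintro rfl
    exact (NeZero.ne (M * 0)) (by simp)
  have : NeZero N := ⟨hN0⟩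
  set e := ZMod.chineseRemainder hMN with he
  have he1 : ∀ x : ZMod (M * N), (e x).1 = ((x.val : ℕ) : ZMod M) := by
    intro x
    have h1 : e x = (((x.val : ℕ) : ZMod M), ((x.val : ℕ) : ZMod N)) := by
      conv_lhs => rw [← ZMod.natCast_zmod_val x]
      rw [map_natCast]
      rfl
    rw [h1]
  -- the fibre averages
  have hfav : ∀ (F : ZMod (M * N) → ℝ) (r : ZMod M), fav M F r = 𝔼 z : ZMod N, F (e.symm (r, z)) := by
    intro F r
    unfold fav
    refine expect_nbij' (fun x => (e x).2) (fun z => e.symm (r, z)) (fun x _ => mem_univ _) ?_ ?_ ?_ ?_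
    · intro z _
      rw [mem_filter]
      refine ⟨mem_univ _, ?_⟩
      rw [← he1, RingEquiv.apply_symm_apply]
    · intro x hx
      rw [mem_filter] at hx
      rw [← hx.2, ← he1, Prod.mk.eta, RingEquiv.symm_apply_apply]
    · intro z _
      rw [RingEquiv.apply_symm_apply]
    · intro x hx
      rw [mem_filter] at hx
      rw [← hx.2, ← he1, Prod.mk.eta, RingEquiv.symm_apply_apply]
  have hexp : ∀ F : ZMod (M * N) → ℝ, 𝔼 x, F x = 𝔼 r : ZMod M, 𝔼 z : ZMod N, F (e.symm (r, z)) := by
    intro F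
    rw [Fintype.expect_equiv e.toEquiv F (fun p => F (e.symm p)) (fun x => by
      change F x = F (e.symm (e x))
      rw [RingEquiv.symm_apply_apply]), ← univ_product_univ, expect_product]
  have hu : IsUnit (K : ZMod N) := (ZMod.isUnit_iff_coprime K N).2 hKN
  have hsh : ∀ (r : ZMod M) (z : ZMod N) (r' : ZMod M) (z' : ZMod N) (o : Option (Fin (s + 1))),
      e.symm (r, z) + sh d ((K : ZMod (M * N)) * e.symm (r', z')) o =
      e.symm (r + sh d ((K : ZMod M) * r') o, z + sh d ((K : ZMod N) * z') o) := by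
    intro r z r' z' o
    apply e.injective
    rw [map_add, RingEquiv.apply_symm_apply, RingEquiv.apply_symm_apply]
    cases o with
    | none => simp [sh]
    | some i =>
      simp only [sh, map_pow, map_mul, map_natCast, RingEquiv.apply_symm_apply]
      rfl
  have hmain : lfm d K (M * N) H = 𝔼 r : ZMod M, 𝔼 r' : ZMod M, lfm d 1 N
      (fun o z => H o (e.symm (r + sh d ((K : ZMod M) * r') o, z))) := by
    unfold lfm
    rw [hexp]
    refine expect_congr rfl fun r _ => ?_
    have h1 : ∀ z : ZMod N, (𝔼 κ : ZMod (M * N), ∏ o, H o (e.symm (r, z) +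
        sh d ((K : ZMod (M * N)) * κ) o)) = 𝔼 r' : ZMod M, 𝔼 z' : ZMod N,
        ∏ o, H o (e.symm (r + sh d ((K : ZMod M) * r') o, z + sh d ((K : ZMod N) * z') o)) := by
      intro z
      rw [hexp]
      simp only [hsh]
    simp only [h1]
    rw [expect_comm]
    refine expect_congr rfl fun r' _ => expect_congr rfl fun z _ => ?_
    refine Fintype.expect_equiv (Units.mulLeft hu.unit) _ _ fun z' => ?_
    simp only [Units.mulLeft_apply, IsUnit.unit_spec, Nat.cast_one, one_mul]
  have hmain2 : lfm d K M (fun o => fav M (H o)) = 𝔼 r : ZMod M, 𝔼 r' : ZMod M,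
      ∏ o, 𝔼 z : ZMod N, H o (e.symm (r + sh d ((K : ZMod M) * r') o, z)) := by
    unfold lfm
    simp only [hfav]
  rcases eq_or_lt_of_le hV with hV0 | hV0
  · have hH0 : ∀ o x, H o x = 0 := fun o x => by
      have := hH o x
      rw [← hV0] at this
      exact abs_nonpos_iff.1 this
    rw [hmain, hmain2]
    unfold lfm
    have hz : (∏ _o : Option (Fin (s + 1)), (0 : ℝ)) = 0 := by
      rw [prod_const]
      exact zero_pow (by simp)
    simp only [hH0, expect_const_zero, hz, sub_self, abs_zero]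
    positivity
  rw [hmain, hmain2, ← expect_sub_distrib]
  refine (abs_expect_le _ _).trans (expect_le univ_nonempty fun r _ => ?_)
  rw [← expect_sub_distrib]
  refine (abs_expect_le _ _).trans (expect_le univ_nonempty fun r' _ => ?_)
  refine (hin y N hy hN V hV0 _ fun o z => hH o _).trans (le_of_eq ?_)
  ring

end

end Pool.Agent.Helper67.NX2
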